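import Mathlib
import Pool.Agent.H72.AP.Core
import Pool.Agent.H72.AP.Connect
import Pool.Graph.R_seed8.H661R3.OP.PAP

/-!
# Arbitrary labels of the primes and almost primes in all the classes, with the exponent 2

The exponent `L = 2` of the question is reached here (up to `ε`) for almost primes with any prescribed
value of a two-valued completely additive function, for all the prime moduli in `[X, X ^ (1 + κ)]` with at
most one exception.

Let `G` be a finite abelian group, `|G| ≤ N` (or `G` of exponent `2` and `|G| ≤ 2 ^ (N - 1)`), give the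
primes arbitrary labels in `G`, and let the label of `n` be the sum of the labels of its prime factors. Call
the modulus `q` exceptional if NOT every `g` in `G` is, in every reduced class modulo `q`, the label of at
least `q ^ (ε / 2)` integers `n ≤ q ^ (N + ε)` which are products of at most `R` primes, all larger than
`q ^ δ`. We show:

* (obstruction) for an exceptional `q` there is a maximal subgroup `H` of `G` such that the label modulo
  `H` of the integers without small prime factors is a function of their class modulo `q`, up to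
  `q ^ (1 + η)`. (Conversely, if this is so up to `x`, then in no reduced class modulo `q` all labels occur
  up to `x`: `obstruction`.)
* (repulsion) no `H` belongs to two exceptional primes `q₁ ≠ q₂` in `[X, X ^ (1 + κ)]`, unless the label
  modulo `H` is a function of the class modulo `6`.

For example (`result_Omega`) for all the primes `q` in `[X, X ^ (1 + κ)]` with at most one exception, every
reduced class modulo `q` contains almost primes `≤ q ^ (2 + ε)` with an even, and with an odd, number of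
prime factors.

Method. For (1): families of rough numbers in ONE class modulo `q` whose labels exhaust `G` (products of
pairs `{u, v}` of rough numbers in the same class whose labels differ modulo the stabiliser of the labels
obtained before), and a sieve for the cofactor. For (2): let the label modulo `H` be a function of the class
modulo both of the primes `q₁ ≠ q₂`. By a two dimensional sieve there are rough `n`, `n + 6 q₂ i` in the
classes `c`, `c + 6 q₂ i` modulo `6 q₁`; so the labels modulo `H` of these classes are equal, and since `q₂`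
is invertible modulo `q₁` a chain of classes shows that the label modulo `H` is the same for all rough
integers `≡ 1` modulo `6`.
-/

set_option autoImplicit false

open Finset

namespace Pool.Agent.Results.MP_c5bf7b_nt.LabelledClasses

open Pool.Agent.H72.AP
open Pool.Agent.H72.CG (SVG exists_SVG)

/-- In every reduced class modulo `q` every `g` is the label of at least `q ^ c` integers `1 < n ≤ q ^ E`
which are products of at most `R` primes, all larger than `q ^ δ`. -/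
def AllLabels {G : Type} [AddCommGroup G] (Φ : ℕ → G) (R : ℕ) (δ E c : ℝ) (q : ℕ) : Prop :=
  ∀ a : ℕ, a.Coprime q → ∀ g : G,
    (q : ℝ) ^ c ≤ ((Labelled Φ R ((q : ℝ) ^ δ) ((q : ℝ) ^ E) q a g).ncard : ℝ)

/-- the exceptional moduli `q` in `[X, X ^ (1 + κ)]` -/
def Exceptions {G : Type} [AddCommGroup G] (Φ : ℕ → G) (R : ℕ) (δ E c κ X : ℝ) : Set ℕ :=
  {q : ℕ | X ≤ q ∧ (q : ℝ) ≤ X ^ (1 + κ) ∧ ¬ AllLabels Φ R δ E c q}

theorem obstruction {G : Type} [AddCommGroup G] (Φ : ℕ → G) (q : ℕ) (z x : ℝ) (H : AddSubgroup G)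
    (hH : H ≠ ⊤) (h : ¬ NotPeriodic Φ q z x H) (a : ℕ) (ha : a.Coprime q) :
    ∃ g : G, ∀ R : ℕ, Labelled Φ R z x q a g = ∅ := by
  by_cases hex : ∃ n₀ : ℕ, 0 < n₀ ∧ (n₀ : ℝ) ≤ x ∧ n₀ ≡ a [MOD q] ∧
    (∀ l : ℕ, l.Prime → l ∣ n₀ → z < l)
  · obtain ⟨n₀, h1, h2, h3, h4⟩ := hex
    obtain ⟨c, hc⟩ : ∃ c : G, c ∉ H := by
      by_contra hcon
      push Not at hcon
      exact hH ((AddSubgroup.eq_top_iff' H).2 hcon)
    refine ⟨c + label Φ n₀, fun R => ?_⟩
    rw [Set.eq_empty_iff_forall_notMem]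
    rintro n ⟨k1, k2, k3, -, k5, k6⟩
    apply h
    refine ⟨n, n₀, by omega, h1, k2, h2, ?_, ?_, k3.trans h3.symm, ?_⟩
    · intro l hl hd
      rcases (hl.dvd_mul).1 hd with h | h
      · exact k5 l hl h
      · exact h4 l hl h
    · have := k3.gcd_eq
      unfold Nat.Coprime at ha ⊢
      rw [this]; exact ha
    · rw [k6, add_sub_cancel_right]
      exact hc
  · refine ⟨0, fun R => ?_⟩
    rw [Set.eq_empty_iff_forall_notMem]
    rintro n ⟨k1, k2, k3, -, k5, -⟩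
    exact hex ⟨n, by omega, k2, k3, k5⟩

theorem notPeriodic_mono {G : Type} [AddCommGroup G] {Φ : ℕ → G} {q : ℕ} {z z' y y' : ℝ}
    {H H' : AddSubgroup G} (hH : H ≤ H') (hz : z ≤ z') (hy : y' ≤ y)
    (h : NotPeriodic Φ q z' y' H') : NotPeriodic Φ q z y H := by
  obtain ⟨u, v, h1, h2, h3, h4, h5, h6, h7, h8⟩ := h
  exact ⟨u, v, h1, h2, h3.trans hy, h4.trans hy, fun l hl hd => hz.trans_lt (h5 l hl hd), h6, h7,
    fun h9 => h8 (hH h9)⟩

/-- the theorem without the prime `≡ 1` modulo `6` -/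
theorem main (N : ℕ) (hN : 1 ≤ N) (ε : ℝ) (hε : 0 < ε) :
    ∃ (R : ℕ) (δ η κ : ℝ), 0 < δ ∧ 4 * δ ≤ 1 / 4 ∧ 0 < η ∧ 0 < κ ∧ ∃ X₀ : ℝ, ∀ X : ℝ, X₀ ≤ X →
      ∀ (G : Type) [AddCommGroup G] [Fintype G],
      (Fintype.card G ≤ N ∨ (∀ z : G, z + z = 0) ∧ Fintype.card G ≤ 2 ^ (N - 1)) → ∀ Φ : ℕ → G,
      ∃ f : ℕ → AddSubgroup G,
        (∀ q ∈ Exceptions Φ R δ (N + ε) (ε / 2) κ X, IsCoatom (f q) ∧
          ¬ NotPeriodic Φ q (X ^ (2 * δ)) (X ^ (1 + η)) (f q)) ∧
        ((∀ H : AddSubgroup G, H ≠ ⊤ → NotPeriodic Φ 6 (X ^ (2 * δ)) (X ^ (1 / 4 : ℝ)) H) →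
          Set.InjOn f {q : ℕ | q ∈ Exceptions Φ R δ (N + ε) (ε / 2) κ X ∧ q.Prime}) := by
  classical
  obtain ⟨δ₀, hδ₀, hcore⟩ := core N hN ε hε
  obtain ⟨C, hC⟩ := exists_SVG 2 (by norm_num)
  have hN0 : (0 : ℝ) < (N : ℝ) := by exact_mod_cast hN
  obtain ⟨η, hη⟩ : ∃ η : ℝ, η = ε / (8 * N) := ⟨_, rfl⟩
  have hη0 : 0 < η := by rw [hη]; positivity
  obtain ⟨κ, hκ⟩ : ∃ κ : ℝ, κ = min (η / 4) (1 / 4) := ⟨_, rfl⟩
  have hκ0 : 0 < κ := by rw [hκ]; exact lt_min (by positivity) (by norm_num)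
  have hκη : κ ≤ η / 4 := by rw [hκ]; exact min_le_left _ _
  have hκ4 : κ ≤ 1 / 4 := by rw [hκ]; exact min_le_right _ _
  obtain ⟨δ, hδ⟩ : ∃ δ : ℝ, δ = min δ₀ (min (1 / 16) (κ / (2 * (C + 1)))) := ⟨_, rfl⟩
  have hC0 : (0 : ℝ) < 2 * ((C : ℝ) + 1) := by positivity
  have hδ0 : 0 < δ := by
    rw [hδ]; exact lt_min hδ₀ (lt_min (by norm_num) (by positivity))
  have hδ1 : δ ≤ δ₀ := by rw [hδ]; exact min_le_left _ _
  have hδ16 : δ ≤ 1 / 16 := by rw [hδ]; exact (min_le_right _ _).trans (min_le_left _ _)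
  have hδC : 2 * δ * C ≤ κ := by
    have h1 : δ ≤ κ / (2 * (C + 1)) := by
      rw [hδ]; exact (min_le_right _ _).trans (min_le_right _ _)
    rw [le_div_iff₀ hC0] at h1
    nlinarith
  obtain ⟨q₀, hq₀⟩ := hcore δ hδ0 hδ1
  have l1 : ∀ᶠ x : ℝ in Filter.atTop, (2 : ℝ) ≤ x ^ (2 * δ) :=
    (tendsto_rpow_atTop (by positivity)).eventually_ge_atTop _
  have l2 : ∀ᶠ x : ℝ in Filter.atTop, (31 : ℝ) ≤ x ^ (η / 2) :=
    (tendsto_rpow_atTop (by positivity)).eventually_ge_atTop _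
  have l3 : ∀ᶠ x : ℝ in Filter.atTop, (3 : ℝ) ≤ x ^ (3 / 4 : ℝ) :=
    (tendsto_rpow_atTop (by norm_num)).eventually_ge_atTop _
  obtain ⟨x₁, hx₁⟩ := Filter.eventually_atTop.mp (l1.and (l2.and l3))
  refine ⟨⌈(N + ε) / δ⌉₊, δ, η, κ, hδ0, by linarith, hη0, hκ0, max (max x₁ q₀) 4, ?_⟩
  intro X hX G _ _ hG Φ
  have part1 : ∀ q : ℕ, max (max x₁ q₀) 4 ≤ (q : ℝ) → (∀ H : AddSubgroup G, H ≠ ⊤ →
      NotPeriodic Φ q ((q : ℝ) ^ δ) ((q : ℝ) ^ (1 + η)) H) →
      AllLabels Φ ⌈(N + ε) / δ⌉₊ δ (N + ε) (ε / 2) q := by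
    intro q hq hnp a ha g
    refine hq₀ q ?_ G hG Φ ?_ a ha g
    · exact_mod_cast ((le_max_right _ _).trans (le_max_left _ _)).trans hq
    · rw [← hη]
      exact hnp
  have hXx₁ : x₁ ≤ X := ((le_max_left _ _).trans (le_max_left _ _)).trans hX
  have hX4 : (4 : ℝ) ≤ X := (le_max_right _ _).trans hX
  have hX0 : (0 : ℝ) < X := by linarith
  have hX1 : (1 : ℝ) ≤ X := by linarith
  have hX1' : (1 : ℝ) < X := by linarith
  obtain ⟨b1, b2, b3⟩ := hx₁ X hXx₁
  obtain ⟨Y, hY⟩ : ∃ Y : ℕ, Y = ⌊X ^ (2 * δ)⌋₊ := ⟨_, rfl⟩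
  have hY2 : 2 ≤ Y := by
    rw [hY]
    exact Nat.le_floor (by exact_mod_cast b1)
  have hYz : (Y : ℝ) ≤ X ^ (2 * δ) := by rw [hY]; exact Nat.floor_le (by positivity)
  have hzY : X ^ (2 * δ) < (Y : ℝ) + 1 := by rw [hY]; exact Nat.lt_floor_add_one _
  obtain ⟨y, hy⟩ : ∃ y : ℕ, y = ⌊X ^ (1 + η)⌋₊ := ⟨_, rfl⟩
  have hyle : (y : ℝ) ≤ X ^ (1 + η) := by rw [hy]; exact Nat.floor_le (by positivity)
  have hYC : ((Y ^ C : ℕ) : ℝ) ≤ X ^ κ := by
    push_cast
    calc (Y : ℝ) ^ C ≤ (X ^ (2 * δ)) ^ C := pow_le_pow_left₀ (Nat.cast_nonneg _) hYz C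
      _ = X ^ (2 * δ * C) := by
        rw [← Real.rpow_natCast (X ^ (2 * δ)) C, ← Real.rpow_mul hX0.le]
      _ ≤ X ^ κ := Real.rpow_le_rpow_of_exponent_le hX1 hδC
  have hXκ1 : (1 : ℝ) ≤ X ^ κ := Real.one_le_rpow hX1 hκ0.le
  have hXκ : 2 * X ^ κ < X := by
    have h1 : X ^ κ ≤ X ^ (1 / 4 : ℝ) := Real.rpow_le_rpow_of_exponent_le hX1 hκ4
    have h2 : X ^ (1 / 4 : ℝ) * X ^ (3 / 4 : ℝ) = X := by
      rw [← Real.rpow_add hX0]
      norm_num
    have h3 : (0 : ℝ) < X ^ (1 / 4 : ℝ) := by positivity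
    nlinarith
  have hδX : X ^ (2 * δ) < X := by
    calc X ^ (2 * δ) < X ^ (1 : ℝ) := Real.rpow_lt_rpow_of_exponent_lt hX1' (by linarith)
      _ = X := Real.rpow_one X
  -- the function from the exceptions to the maximal subgroups
  have hex : ∀ q : ℕ, ∃ H : AddSubgroup G, q ∈ Exceptions Φ ⌈(N + ε) / δ⌉₊ δ (N + ε) (ε / 2) κ X →
      IsCoatom H ∧ ¬ NotPeriodic Φ q (X ^ (2 * δ)) (X ^ (1 + η)) H := by
    intro q
    by_cases hq : q ∈ Exceptions Φ ⌈(N + ε) / δ⌉₊ δ (N + ε) (ε / 2) κ X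
    · obtain ⟨h2, h3, h4⟩ := hq
      have h5 : ¬ ∀ H : AddSubgroup G, H ≠ ⊤ →
          NotPeriodic Φ q ((q : ℝ) ^ δ) ((q : ℝ) ^ (1 + η)) H :=
        fun h => h4 (part1 q (hX.trans h2) h)
      push Not at h5
      obtain ⟨H, hH, hnpH⟩ := h5
      obtain ⟨H', hH', hle⟩ := (eq_top_or_exists_le_coatom H).resolve_left hH
      refine ⟨H', fun _ => ⟨hH', fun hcon => hnpH (notPeriodic_mono hle ?_ ?_ hcon)⟩⟩
      · calc (q : ℝ) ^ δ ≤ (X ^ (1 + κ)) ^ δ := Real.rpow_le_rpow (Nat.cast_nonneg _) h3 hδ0.le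
          _ = X ^ ((1 + κ) * δ) := (Real.rpow_mul hX0.le _ _).symm
          _ ≤ X ^ (2 * δ) := by
            apply Real.rpow_le_rpow_of_exponent_le hX1
            apply mul_le_mul_of_nonneg_right _ hδ0.le
            linarith
      · exact Real.rpow_le_rpow hX0.le h2 (by positivity)
    · exact ⟨⊤, fun h => absurd h hq⟩
  choose f hf using hex
  refine ⟨f, hf, ?_⟩
  intro hnp
  have hper : ∀ q ∈ Exceptions Φ ⌈(N + ε) / δ⌉₊ δ (N + ε) (ε / 2) κ X,
      Per (label Φ) Y y q (f q) := by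
    intro q hq u v hu hv huy hvy hru hrv hcu hcv huv
    by_contra hcon
    apply (hf q hq).2
    refine ⟨u, v, hu, hv, (Nat.cast_le.2 huy).trans hyle, (Nat.cast_le.2 hvy).trans hyle, ?_, hcu,
      huv, hcon⟩
    intro l hl hd
    have hYl : Y + 1 ≤ l := by
      rcases (hl.dvd_mul).1 hd with h | h
      · exact hru l hl h
      · exact hrv l hl h
    have hYl' : (Y : ℝ) + 1 ≤ l := by exact_mod_cast hYl
    linarith
  · rintro q₁ ⟨hq₁, p1⟩ q₂ ⟨hq₂, s1⟩ h12
    by_contra hne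
    have hcoat := (hf q₁ hq₁).1
    have hper1 := hper q₁ hq₁
    have hper2 := hper q₂ hq₂
    rw [← h12] at hper2
    obtain ⟨u, v, c1, c2, c3, c4, c5, c6, c7, c8⟩ := hnp (f q₁) hcoat.1
    apply c8
    obtain ⟨p2, p3, -⟩ := hq₁
    obtain ⟨s2, s3, -⟩ := hq₂
    have cop : ∀ {a b m : ℕ}, a ≡ b [MOD m] → b.Coprime m → a.Coprime m := by
      intro a b m h h'
      have := h.gcd_eq
      unfold Nat.Coprime at h' ⊢
      rw [this]; exact h'
    have hlt : ∀ w : ℕ, (w : ℝ) ≤ X ^ (1 / 4 : ℝ) * X ^ (1 / 4 : ℝ) → (w : ℝ) < q₁ ∧ w ≤ y := by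
      intro w hw
      rw [← Real.rpow_add hX0] at hw
      norm_num at hw
      constructor
      · calc (w : ℝ) ≤ X ^ (1 / 2 : ℝ) := hw
          _ < X ^ (1 : ℝ) := Real.rpow_lt_rpow_of_exponent_lt hX1' (by norm_num)
          _ = X := Real.rpow_one X
          _ ≤ q₁ := p2
      · rw [hy]
        apply Nat.le_floor
        refine hw.trans (Real.rpow_le_rpow_of_exponent_le hX1 (by linarith))
    have hX14 : (0 : ℝ) ≤ X ^ (1 / 4 : ℝ) := by positivity
    have huu : ((u * u : ℕ) : ℝ) ≤ X ^ (1 / 4 : ℝ) * X ^ (1 / 4 : ℝ) := by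
      push_cast
      exact mul_le_mul c3 c3 (Nat.cast_nonneg _) hX14
    have hvu : ((v * u : ℕ) : ℝ) ≤ X ^ (1 / 4 : ℝ) * X ^ (1 / 4 : ℝ) := by
      push_cast
      exact mul_le_mul c4 c3 (Nat.cast_nonneg _) hX14
    have hcopq : ∀ w : ℕ, 0 < w → (w : ℝ) < q₁ → w.Coprime q₁ := by
      intro w hw hwq
      rw [Nat.coprime_comm, p1.coprime_iff_not_dvd]
      intro hd
      have h1 := Nat.le_of_dvd hw hd
      have h2 : (q₁ : ℝ) ≤ w := by exact_mod_cast h1
      linarith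
    have hru : RoughN Y u := by
      intro l hl hd
      have := c5 l hl (hd.mul_right _)
      exact_mod_cast hYz.trans_lt this
    have hrv : RoughN Y v := by
      intro l hl hd
      have := c5 l hl (hd.mul_left _)
      exact_mod_cast hYz.trans_lt this
    have huu6 : u * u ≡ 1 [MOD 6] := by
      have h1 : u % 6 = 1 ∨ u % 6 = 5 := by
        have h2 : ¬ 2 ∣ u := by
          intro h
          have := Nat.dvd_gcd h (by norm_num : 2 ∣ 6)
          rw [c6] at this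
          omega
        have h3 : ¬ 3 ∣ u := by
          intro h
          have := Nat.dvd_gcd h (by norm_num : 3 ∣ 6)
          rw [c6] at this
          omega
        omega
      unfold Nat.ModEq
      rw [Nat.mul_mod]
      rcases h1 with h | h <;> rw [h]
    have hvu6 : v * u ≡ 1 [MOD 6] := (c7.symm.mul_right u).trans huu6
    have hY1 : Y < q₁ := by
      have : (Y : ℝ) < q₁ := (hYz.trans_lt hδX).trans_le p2
      exact_mod_cast this
    have h31 : 3 < q₁ := by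
      have : (3 : ℝ) < q₁ := by linarith
      exact_mod_cast this
    have h32 : 3 < q₂ := by
      have : (3 : ℝ) < q₂ := by linarith
      exact_mod_cast this
    have hbig : 2 * Y ^ C < q₂ := by
      have : ((2 * Y ^ C : ℕ) : ℝ) < q₂ := by
        push_cast
        push_cast at hYC
        linarith
      exact_mod_cast this
    have hyy : 6 * q₁ * (2 * Y ^ C + 1) + 12 * q₂ ≤ y := by
      rw [hy]
      apply Nat.le_floor
      push_cast
      push_cast at hYC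
      have e1 : (6 : ℝ) * q₁ * (2 * Y ^ C + 1) ≤ 6 * X ^ (1 + κ) * (3 * X ^ κ) := by
        apply mul_le_mul _ _ (by positivity) (by positivity)
        · linarith
        · linarith
      have e2 : (12 : ℝ) * q₂ ≤ 12 * X ^ (1 + κ) * X ^ κ := by
        have h1 : (12 : ℝ) * q₂ ≤ 12 * X ^ (1 + κ) := by linarith
        have h2 : (0 : ℝ) ≤ 12 * X ^ (1 + κ) := by positivity
        nlinarith
      have e3 : X ^ (1 + κ) * X ^ κ ≤ X ^ (1 + η / 2) := by
        rw [← Real.rpow_add hX0]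
        apply Real.rpow_le_rpow_of_exponent_le hX1
        linarith
      have e4 : X ^ (1 + η) = X ^ (1 + η / 2) * X ^ (η / 2) := by
        rw [← Real.rpow_add hX0]
        congr 1
        ring
      have e5 : (0 : ℝ) < X ^ (1 + η / 2) := by positivity
      have e6 : X ^ (1 + η / 2) * 31 ≤ X ^ (1 + η / 2) * X ^ (η / 2) :=
        mul_le_mul_of_nonneg_left b2 e5.le
      rw [e4]
      calc (6 : ℝ) * q₁ * (2 * Y ^ C + 1) + 12 * q₂
          ≤ 6 * X ^ (1 + κ) * (3 * X ^ κ) + 12 * X ^ (1 + κ) * X ^ κ := add_le_add e1 e2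
        _ = 30 * (X ^ (1 + κ) * X ^ κ) := by ring
        _ ≤ 30 * X ^ (1 + η / 2) := by linarith
        _ ≤ X ^ (1 + η / 2) * 31 := by linarith
        _ ≤ _ := e6
    have key := const_of_two hC (label Φ) (f q₁) Y y q₁ q₂ hY2 p1 s1 hY1 h31 h32 hbig hyy hper1
      hper2 hne (u * u) (v * u) (Nat.mul_pos c1 c1) (Nat.mul_pos c2 c1) (hlt _ huu).2 (hlt _ hvu).2
      (hru.mul hru) (hrv.mul hru) (hcopq _ (Nat.mul_pos c1 c1) (hlt _ huu).1)
      (hcopq _ (Nat.mul_pos c2 c1) (hlt _ hvu).1) huu6 hvu6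
    rw [label_mul Φ _ _ c1.ne' c1.ne', label_mul Φ _ _ c2.ne' c1.ne', add_sub_add_right_eq_sub] at key
    exact key

/-- **Almost primes with arbitrary labels in all the reduced classes, up to `q ^ (N + ε)`.** Let `N ≥ 1` and
`ε > 0`. There are `R` and `δ, η, κ > 0` such that the following holds for all large `X`. (There is a prime
`p ≡ 1` modulo `6` with `X ^ (2 δ) < p ≤ X ^ (1 / 4)`.)

Let `G` be a finite abelian group with at most `N` elements, or of exponent `2` with at most `2 ^ (N - 1)`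
elements, let `Φ p ∈ G` be arbitrary labels of the primes, and let the label of `n` be the sum of the labels
of its prime factors (with multiplicity). Call `q` in `[X, X ^ (1 + κ)]` exceptional if NOT every `g` in `G`
is in every reduced class modulo `q` the label of at least `q ^ (ε / 2)` integers `n ≤ q ^ (N + ε)` which
are products of at most `R` primes, all larger than `q ^ δ`.

Then each exceptional `q` (prime or not) has a maximal subgroup `H_q` of `G` such that the label modulo `H_q`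
of the integers `≤ X ^ (1 + η)`, coprime to `q` and without prime factors `≤ X ^ (2 δ)`, is a function of
their class modulo `q`; and `H_q ≠ H_q'` for any two exceptional PRIMES `q ≠ q'`, unless for some `H ≠ G`
the label modulo `H` of the integers `≤ X ^ (1 / 4)`, coprime to `6` and without prime factors
`≤ X ^ (2 δ)`, is a function of their class modulo `6`. -/
theorem result (N : ℕ) (hN : 1 ≤ N) (ε : ℝ) (hε : 0 < ε) :
    ∃ (R : ℕ) (δ η κ : ℝ), 0 < δ ∧ 0 < η ∧ 0 < κ ∧ ∃ X₀ : ℝ, ∀ X : ℝ, X₀ ≤ X →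
      (∃ p : ℕ, p.Prime ∧ X ^ (2 * δ) < p ∧ (p : ℝ) ≤ X ^ (1 / 4 : ℝ) ∧ p ≡ 1 [MOD 6]) ∧
      ∀ (G : Type) [AddCommGroup G] [Fintype G],
      (Fintype.card G ≤ N ∨ (∀ z : G, z + z = 0) ∧ Fintype.card G ≤ 2 ^ (N - 1)) → ∀ Φ : ℕ → G,
      ∃ f : ℕ → AddSubgroup G,
        (∀ q ∈ Exceptions Φ R δ (N + ε) (ε / 2) κ X, IsCoatom (f q) ∧
          ¬ NotPeriodic Φ q (X ^ (2 * δ)) (X ^ (1 + η)) (f q)) ∧
        ((∀ H : AddSubgroup G, H ≠ ⊤ → NotPeriodic Φ 6 (X ^ (2 * δ)) (X ^ (1 / 4 : ℝ)) H) →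
          Set.InjOn f {q : ℕ | q ∈ Exceptions Φ R δ (N + ε) (ε / 2) κ X ∧ q.Prime}) := by
  obtain ⟨R, δ, η, κ, hδ, hδ4, hη, hκ, X₁, hmain⟩ := main N hN ε hε
  obtain ⟨Y₀, hY₀⟩ := Pool.Agent.H661R3.OP.t_PAP 6 (by norm_num)
  have l1 : ∀ᶠ x : ℝ in Filter.atTop, ((Y₀ : ℝ) + 1) ≤ x ^ (2 * δ) :=
    (tendsto_rpow_atTop (by positivity)).eventually_ge_atTop _
  obtain ⟨x₂, hx₂⟩ := Filter.eventually_atTop.mp l1
  refine ⟨R, δ, η, κ, hδ, hη, hκ, max (max X₁ x₂) 1, ?_⟩
  intro X hX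
  have hXX₁ : X₁ ≤ X := ((le_max_left _ _).trans (le_max_left _ _)).trans hX
  have hXx₂ : x₂ ≤ X := ((le_max_right _ _).trans (le_max_left _ _)).trans hX
  have hX1 : 1 ≤ X := (le_max_right _ _).trans hX
  have hX0 : 0 < X := by linarith
  refine ⟨?_, hmain X hXX₁⟩
  obtain ⟨p, hp, hp1, hp2, hp3⟩ := hY₀ ⌊X ^ (2 * δ)⌋₊ (by
    apply Nat.le_floor
    have := hx₂ X hXx₂
    linarith)
  refine ⟨p, hp, ?_, ?_, ?_⟩
  · have : ⌊X ^ (2 * δ)⌋₊ + 1 ≤ p := hp1
    calc X ^ (2 * δ) < (⌊X ^ (2 * δ)⌋₊ : ℝ) + 1 := Nat.lt_floor_add_one _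
      _ ≤ p := by exact_mod_cast this
  · calc (p : ℝ) ≤ ((⌊X ^ (2 * δ)⌋₊ ^ 2 : ℕ) : ℝ) := by exact_mod_cast hp2
      _ = (⌊X ^ (2 * δ)⌋₊ : ℝ) ^ 2 := by push_cast; rfl
      _ ≤ (X ^ (2 * δ)) ^ 2 :=
        pow_le_pow_left₀ (by positivity) (Nat.floor_le (by positivity)) 2
      _ = X ^ (2 * δ * 2) := by
        rw [Real.rpow_mul hX0.le (2 * δ) 2]
        norm_num
      _ ≤ X ^ (1 / 4 : ℝ) := Real.rpow_le_rpow_of_exponent_le hX1 (by linarith)
  · apply Nat.ModEq.symm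
    rw [Nat.modEq_iff_dvd]
    simpa using hp3

/-- the integers `1 < n ≤ x`, `n ≡ a` modulo `q`, which are products of at most `R` primes, all larger than
`z`, the number of their prime factors (with multiplicity) being `≡ t` modulo `M` -/
def OmegaIn (R : ℕ) (z x : ℝ) (q a M t : ℕ) : Set ℕ :=
  {n : ℕ | 1 < n ∧ (n : ℝ) ≤ x ∧ n ≡ a [MOD q] ∧ n.primeFactorsList.length ≤ R ∧
    (∀ l : ℕ, l.Prime → l ∣ n → z < l) ∧ n.primeFactorsList.length ≡ t [MOD M]}

/-- **The number of prime factors.** The case `G = ZMod M`, `M` prime, `Φ = 1` of `result`: for all the primes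
`q` in `[X, X ^ (1 + κ)]`, with at most one exception, in all the reduced classes modulo `q` the number of
prime factors of almost primes `n ≤ q ^ (M + ε)` lies in any given class modulo `M`. -/
theorem result_Omega (M : ℕ) (hM : M.Prime) (ε : ℝ) (hε : 0 < ε) :
    ∃ (R : ℕ) (δ κ : ℝ), 0 < δ ∧ 0 < κ ∧ ∃ X₀ : ℝ, ∀ X : ℝ, X₀ ≤ X →
      {q : ℕ | q.Prime ∧ X ≤ q ∧ (q : ℝ) ≤ X ^ (1 + κ) ∧
        ¬ ∀ a : ℕ, a.Coprime q → ∀ t : ℕ, (q : ℝ) ^ (ε / 2) ≤
          ((OmegaIn R ((q : ℝ) ^ δ) ((q : ℝ) ^ (M + ε)) q a M t).ncard : ℝ)}.Subsingleton := by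
  have : Fact M.Prime := ⟨hM⟩
  obtain ⟨R, δ, η, κ, hδ, hη, hκ, X₀, h⟩ := result M hM.one_lt.le ε hε
  refine ⟨R, δ, κ, hδ, hκ, max X₀ 1, ?_⟩
  intro X hX
  have hX1 : 1 ≤ X := (le_max_right _ _).trans hX
  obtain ⟨⟨p, hp, hp1, hp2, hp3⟩, h1⟩ := h X ((le_max_left _ _).trans hX)
  obtain ⟨f, hf, hinj⟩ := h1 (ZMod M) (Or.inl (by rw [ZMod.card])) (fun _ => 1)
  have hM' : Fact (Nat.card (ZMod M)).Prime := ⟨by rw [Nat.card_zmod]; exact hM⟩
  have hinj' := hinj (by
    intro H hH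
    refine ⟨p, 1, hp.pos, one_pos, hp2, ?_, ?_, ?_, hp3, ?_⟩
    · push_cast
      exact Real.one_le_rpow hX1 (by norm_num)
    · intro l hl hd
      rw [mul_one] at hd
      rw [(Nat.prime_dvd_prime_iff_eq hl hp).1 hd]
      exact hp1
    · have h6 := hp3.gcd_eq
      unfold Nat.Coprime
      rw [h6]
      norm_num
    · unfold label
      rw [Nat.primeFactorsList_prime hp]
      simp only [List.map_cons, List.map_nil, List.sum_cons, List.sum_nil, add_zero,
        Nat.primeFactorsList_one, sub_zero]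
      intro h1
      apply hH
      rw [AddSubgroup.eq_top_iff']
      intro z
      have hz : z = (z.val : ℕ) • (1 : ZMod M) := by
        rw [nsmul_eq_mul, mul_one, ZMod.natCast_zmod_val]
      rw [hz]
      exact H.nsmul_mem h1 _)
  have hsub : ∀ q ∈ {q : ℕ | q.Prime ∧ X ≤ q ∧ (q : ℝ) ≤ X ^ (1 + κ) ∧
        ¬ ∀ a : ℕ, a.Coprime q → ∀ t : ℕ, (q : ℝ) ^ (ε / 2) ≤
          ((OmegaIn R ((q : ℝ) ^ δ) ((q : ℝ) ^ (M + ε)) q a M t).ncard : ℝ)},
      q ∈ {q : ℕ | q ∈ Exceptions (fun _ => (1 : ZMod M)) R δ (M + ε) (ε / 2) κ X ∧ q.Prime} := by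
    rintro q ⟨g1, g2, g3, g4⟩
    refine ⟨⟨g2, g3, fun h => g4 ?_⟩, g1⟩
    intro a ha t
    refine (h a ha (t : ZMod M)).trans (le_of_eq ?_)
    congr 2
    ext n
    unfold Labelled OmegaIn label
    simp only [Set.mem_ofPred_eq, List.map_const', List.sum_replicate, nsmul_eq_mul, mul_one]
    rw [ZMod.natCast_eq_natCast_iff]
  intro q hq q' hq'
  apply hinj' (hsub q hq) (hsub q' hq')
  have hbot : ∀ q ∈ Exceptions (fun _ => (1 : ZMod M)) R δ (M + ε) (ε / 2) κ X, f q = ⊥ :=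
    fun q hq => (AddSubgroup.eq_bot_or_eq_top_of_prime_card (f q)).resolve_right (hf q hq).1.1
  rw [hbot q (hsub q hq).1, hbot q' (hsub q' hq').1]

end Pool.Agent.Results.MP_c5bf7b_nt.LabelledClasses
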